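import Pool.Agent.H241.FA.Ell

set_option autoImplicit false

namespace Pool.Agent.H241.FA

open scoped ENNReal
open Finset Topology Filter

namespace E1

/-- the bounded sequence `r ^ k` -/
noncomputable def geo (r : ℝ) (h0 : 0 ≤ r) (h1 : r ≤ 1) : EI :=
  ⟨fun k => ((r : ℂ)) ^ k, by
    apply memℓp_infty
    refine ⟨1, ?_⟩
    rintro _ ⟨k, rfl⟩
    simp only [norm_pow, Complex.norm_real, Real.norm_eq_abs, abs_of_nonneg h0]
    exact pow_le_one₀ h0 h1⟩

lemma geo_apply (r : ℝ) (h0 : 0 ≤ r) (h1 : r ≤ 1) (k : ℕ) : geo r h0 h1 k = (r : ℂ) ^ k := rfl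

lemma geo_mul (r : ℝ) (h0 : 0 ≤ r) (h1 : r ≤ 1) (a b : E1) :
    pairL (geo r h0 h1) (a * b) = pairL (geo r h0 h1) a * pairL (geo r h0 h1) b := by
  have hs : ∀ x : E1, Summable fun k => ‖(r : ℂ) ^ k * x k‖ := by
    intro x
    refine Summable.of_nonneg_of_le (fun _ => norm_nonneg _) (fun k => ?_) (summable_norm x)
    rw [norm_mul, norm_pow, Complex.norm_real, Real.norm_eq_abs, abs_of_nonneg h0]
    exact mul_le_of_le_one_left (norm_nonneg _) (pow_le_one₀ h0 h1)
  simp only [pairL_apply, geo_apply]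
  rw [tsum_mul_tsum_eq_tsum_sum_antidiagonal_of_summable_norm (hs a) (hs b)]
  refine tsum_congr fun n => ?_
  rw [mul_apply, Finset.mul_sum]
  refine Finset.sum_congr rfl fun kl hkl => ?_
  rw [Finset.HasAntidiagonal.mem_antidiagonal] at hkl
  rw [← hkl, pow_add]
  ring

lemma one_eq_geo : (1 : EI) = geo 1 zero_le_one le_rfl := by
  apply lp.ext
  funext k
  rw [geo_apply, lp.infty_coeFn_one]
  simp

/-- the augmentation: the sum of the coefficients -/
noncomputable def aug : E1 →L[ℂ] ℂ := pairL 1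

lemma aug_mul (a b : E1) : aug (a * b) = aug a * aug b := by
  unfold aug
  rw [one_eq_geo, geo_mul]

lemma aug_apply (a : E1) : aug a = ∑' k, a k := by
  unfold aug
  rw [pairL_apply]
  refine tsum_congr fun k => ?_
  rw [one_eq_geo, geo_apply]
  simp

lemma aug_e (k : ℕ) : aug (e k) = 1 := by
  unfold aug
  rw [pairL_e, one_eq_geo, geo_apply]
  simp

lemma e0_mul (x : E1) : e 0 * x = x := by
  have : ContinuousLinearMap.mul ℂ E1 (e 0) = ContinuousLinearMap.id ℂ E1 := by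
    apply clm_ext
    intro k
    simp [e_mul]
  have h := congrArg (fun f : E1 →L[ℂ] E1 => f x) this
  simpa using h

/-! ### the dilation `x_n ↦ 2⁻ⁿ x_n` -/

lemma summable_dil (a : E1) : Summable (fun n => ‖((1/2 : ℝ) : ℂ) ^ n * a n‖) := by
  refine Summable.of_nonneg_of_le (fun _ => norm_nonneg _) (fun k => ?_) (summable_norm a)
  rw [norm_mul, norm_pow, Complex.norm_real, Real.norm_eq_abs, abs_of_nonneg (by norm_num)]
  exact mul_le_of_le_one_left (norm_nonneg _) (pow_le_one₀ (by norm_num) (by norm_num))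

/-- `dil a = (2⁻ⁿ a_n)_n` -/
noncomputable def dil (a : E1) : E1 := mk (fun n => ((1/2 : ℝ) : ℂ) ^ n * a n) (summable_dil a)

lemma dil_apply (a : E1) (n : ℕ) : dil a n = ((1/2 : ℝ) : ℂ) ^ n * a n := rfl

lemma dil_add (a b : E1) : dil (a + b) = dil a + dil b := by
  apply lp.ext
  funext n
  simp only [dil_apply, lp.coeFn_add, Pi.add_apply, mul_add]

lemma dil_smul (c : ℂ) (a : E1) : dil (c • a) = c • dil a := by
  apply lp.ext
  funext n
  simp only [dil_apply, lp.coeFn_smul, Pi.smul_apply, smul_eq_mul]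
  ring

lemma dil_zero : dil 0 = 0 := by
  apply lp.ext
  funext n
  simp only [dil_apply, lp.coeFn_zero, Pi.zero_apply, mul_zero]

lemma dil_mul (a b : E1) : dil (a * b) = dil a * dil b := by
  apply lp.ext
  funext n
  rw [dil_apply, mul_apply, mul_apply, Finset.mul_sum]
  refine Finset.sum_congr rfl fun kl hkl => ?_
  rw [Finset.HasAntidiagonal.mem_antidiagonal] at hkl
  rw [← hkl, pow_add, dil_apply, dil_apply]
  ring

lemma norm_dil_add (a : E1) : ‖dil a‖ + ‖a - dil a‖ = ‖a‖ := by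
  rw [norm_eq, norm_eq, norm_eq, ← (summable_norm _).tsum_add (summable_norm _)]
  refine tsum_congr fun n => ?_
  have h1 : (0 : ℝ) ≤ (1/2 : ℝ) ^ n := by positivity
  have h2 : (1/2 : ℝ) ^ n ≤ 1 := pow_le_one₀ (by norm_num) (by norm_num)
  rw [lp.coeFn_sub, Pi.sub_apply, dil_apply]
  have h3 : a n - ((1/2 : ℝ) : ℂ) ^ n * a n = ((1 - (1/2 : ℝ) ^ n : ℝ) : ℂ) * a n := by
    push_cast
    ring
  rw [h3, norm_mul, norm_mul, norm_pow, Complex.norm_real, Complex.norm_real, Real.norm_eq_abs,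
    Real.norm_eq_abs, abs_of_nonneg (by norm_num : (0 : ℝ) ≤ 1/2),
    abs_of_nonneg (sub_nonneg.mpr h2)]
  ring

lemma norm_dil_le (a : E1) : ‖dil a‖ ≤ ‖a‖ := by
  have := norm_dil_add a
  have h2 := norm_nonneg (a - dil a)
  linarith

/-- the character `s ↦ ∑ s(k) 2^{-k}` -/
noncomputable def psi : E1 →L[ℂ] ℂ := pairL (geo (1/2) (by norm_num) (by norm_num))

lemma psi_mul (a b : E1) : psi (a * b) = psi a * psi b := geo_mul _ _ _ a b

lemma aug_dil (a : E1) : aug (dil a) = psi a := by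
  unfold psi
  rw [aug_apply, pairL_apply]
  refine tsum_congr fun k => ?_
  rw [dil_apply, geo_apply]

/-- positive elements of `ℓ¹` -/
def Pos (s : E1) : Prop := ∀ k, 0 ≤ (s k).re ∧ (s k).im = 0

lemma Pos.eq {s : E1} (hs : Pos s) (k : ℕ) : s k = ((s k).re : ℂ) := by
  apply Complex.ext
  · simp
  · simp [(hs k).2]

lemma Pos.add {s t : E1} (hs : Pos s) (ht : Pos t) : Pos (s + t) := by
  intro k
  rw [lp.coeFn_add, Pi.add_apply, Complex.add_re, Complex.add_im, (hs k).2, (ht k).2]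
  exact ⟨add_nonneg (hs k).1 (ht k).1, by simp⟩

lemma Pos.summable_re (s : E1) : Summable fun k => (s k).re := by
  refine Summable.of_norm_bounded (summable_norm s) fun k => ?_
  rw [Real.norm_eq_abs]
  exact Complex.abs_re_le_norm _

lemma Pos.aug_nonneg {s : E1} (hs : Pos s) : 0 ≤ (aug s).re ∧ (aug s).im = 0 := by
  have h : aug s = ((∑' k, (s k).re : ℝ) : ℂ) := by
    rw [Complex.ofReal_tsum, aug_apply]
    exact tsum_congr fun k => hs.eq k
  rw [h, Complex.ofReal_re, Complex.ofReal_im]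
  exact ⟨tsum_nonneg fun k => (hs k).1, rfl⟩

lemma Pos.psi_pos {s : E1} (hs : Pos s) (h1 : aug s = 1) : 0 < (psi s).re ∧ (psi s).im = 0 := by
  have hsum2 : Summable fun k => (1/2 : ℝ) ^ k * (s k).re := by
    refine Summable.of_nonneg_of_le (fun k => mul_nonneg (by positivity) (hs k).1)
      (fun k => ?_) (Pos.summable_re s)
    exact mul_le_of_le_one_left (hs k).1 (pow_le_one₀ (by norm_num) (by norm_num))
  have hpsi : psi s = ((∑' k, (1/2 : ℝ) ^ k * (s k).re : ℝ) : ℂ) := by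
    rw [Complex.ofReal_tsum]
    change pairL _ s = _
    rw [pairL_apply]
    refine tsum_congr fun k => ?_
    rw [geo_apply, hs.eq k]
    push_cast
    simp
  have hne : ∃ k, s k ≠ 0 := by
    by_contra hcon
    push Not at hcon
    rw [aug_apply] at h1
    simp [hcon] at h1
  obtain ⟨k, hk⟩ := hne
  have hk' : 0 < (s k).re := by
    rcases (hs k).1.lt_or_eq with h | h
    · exact h
    · exfalso
      apply hk
      rw [hs.eq k, ← h]
      simp
  rw [hpsi]
  refine ⟨?_, Complex.ofReal_im _⟩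
  rw [Complex.ofReal_re]
  exact hsum2.tsum_pos (fun j => mul_nonneg (by positivity) (hs j).1) k
    (mul_pos (by positivity) hk')

lemma psi_e0 : psi (e 0) = 1 := by
  unfold psi
  rw [pairL_e, geo_apply, pow_zero]

/-! ### the invariant mean -/

/-- Cesàro means of the unit vectors -/
noncomputable def ces (N : ℕ) : E1 := ((N : ℂ) + 1)⁻¹ • ∑ k ∈ range (N + 1), e k

lemma norm_N (N : ℕ) : ‖((N : ℂ) + 1)‖ = (N : ℝ) + 1 := by
  have : ((N : ℂ) + 1) = (((N : ℝ) + 1 : ℝ) : ℂ) := by push_cast; rfl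
  rw [this, Complex.norm_real, Real.norm_eq_abs, abs_of_pos (by positivity)]

lemma norm_ces_le (N : ℕ) : ‖ces N‖ ≤ 1 := by
  unfold ces
  have h1 : ‖∑ k ∈ range (N + 1), e k‖ ≤ (N : ℝ) + 1 := by
    refine (norm_sum_le _ _).trans ?_
    simp [norm_e]
  rw [norm_smul, norm_inv, norm_N, inv_mul_le_iff₀ (by positivity), mul_one]
  exact h1

lemma aug_ces (N : ℕ) : aug (ces N) = 1 := by
  unfold ces
  have hN : ((N : ℂ) + 1) ≠ 0 := by exact_mod_cast Nat.succ_ne_zero N
  rw [map_smul, map_sum, Finset.sum_congr rfl fun k _ => aug_e k]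
  simp [hN]

lemma ces_shift (N : ℕ) : e 1 * ces N - ces N = ((N : ℂ) + 1)⁻¹ • (e (N + 1) - e 0) := by
  unfold ces
  rw [mul_smul_comm, ← smul_sub, Finset.mul_sum, ← Finset.sum_sub_distrib,
    ← Finset.sum_range_sub (fun k => e k) (N + 1)]
  congr 1
  refine Finset.sum_congr rfl fun k _ => ?_
  rw [e_mul, add_comm 1 k]

lemma ces_shift_norm (N : ℕ) : ‖e 1 * ces N - ces N‖ ≤ 2 * ((N : ℝ) + 1)⁻¹ := by
  rw [ces_shift, norm_smul, norm_inv, norm_N, mul_comm]
  refine mul_le_mul_of_nonneg_right ?_ (by positivity)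
  refine (norm_sub_le _ _).trans ?_
  rw [norm_e, norm_e]
  norm_num

lemma dil_e (k : ℕ) : dil (e k) = (((1/2 : ℝ) : ℂ) ^ k) • e k := by
  apply lp.ext
  funext n
  rw [dil_apply, lp.coeFn_smul, Pi.smul_apply, e_apply, smul_eq_mul]
  by_cases h : n = k
  · subst h; rfl
  · simp [h]

/-- `dil` as a continuous linear map -/
noncomputable def dilL : E1 →L[ℂ] E1 :=
  LinearMap.mkContinuous
    { toFun := dil
      map_add' := dil_add
      map_smul' := dil_smul } 1 (fun a => by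
        rw [one_mul]
        exact norm_dil_le a)

@[simp] lemma dilL_apply (a : E1) : dilL a = dil a := rfl

lemma norm_dil_ces (N : ℕ) : ‖dil (ces N)‖ ≤ 2 * ((N : ℝ) + 1)⁻¹ := by
  have h : dil (ces N) = ((N : ℂ) + 1)⁻¹ • ∑ k ∈ range (N + 1), (((1/2 : ℝ) : ℂ) ^ k) • e k := by
    rw [← dilL_apply]
    unfold ces
    rw [map_smul, map_sum]
    congr 1
    exact Finset.sum_congr rfl fun k _ => dil_e k
  rw [h, norm_smul, norm_inv, norm_N, mul_comm]
  refine mul_le_mul_of_nonneg_right ?_ (by positivity)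
  refine (norm_sum_le _ _).trans ?_
  have h2 : ∀ k ∈ range (N + 1), ‖(((1/2 : ℝ) : ℂ) ^ k) • e k‖ = (1/2 : ℝ) ^ k := by
    intro k _
    rw [norm_smul, norm_e, mul_one, norm_pow, Complex.norm_real, Real.norm_eq_abs,
      abs_of_nonneg (by norm_num)]
  rw [Finset.sum_congr rfl h2]
  have h3 : HasSum (fun k : ℕ => (1/2 : ℝ) ^ k) 2 := by
    have := hasSum_geometric_two
    simpa using this
  exact sum_le_hasSum _ (fun _ _ => by positivity) h3

/-- the limit along a free ultrafilter exists -/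
lemma exists_lim (f : E1 →L[ℂ] ℂ) :
    ∃ z : ℂ, Tendsto (fun N => f (ces N)) (hyperfilter ℕ) (𝓝 z) := by
  have hc : IsCompact (Metric.closedBall (0 : ℂ) ‖f‖) := isCompact_closedBall _ _
  have hle : (((hyperfilter ℕ).map (fun N => f (ces N)) : Ultrafilter ℂ) : Filter ℂ)
      ≤ 𝓟 (Metric.closedBall (0 : ℂ) ‖f‖) := by
    rw [le_principal_iff, Ultrafilter.mem_coe, Ultrafilter.mem_map]
    refine Filter.Eventually.of_forall fun N => ?_
    change f (ces N) ∈ Metric.closedBall (0 : ℂ) ‖f‖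
    rw [mem_closedBall_zero_iff]
    exact (f.le_opNorm _).trans (mul_le_of_le_one_right (norm_nonneg _) (norm_ces_le N))
  obtain ⟨z, _, hz⟩ := hc.ultrafilter_le_nhds _ hle
  exact ⟨z, hz⟩

/-- the invariant mean on `(ℓ¹)*` -/
noncomputable def lim0 (f : E1 →L[ℂ] ℂ) : ℂ := (exists_lim f).choose

lemma lim0_spec (f : E1 →L[ℂ] ℂ) :
    Tendsto (fun N => f (ces N)) (hyperfilter ℕ) (𝓝 (lim0 f)) := (exists_lim f).choose_spec

lemma lim0_eq {f : E1 →L[ℂ] ℂ} {z : ℂ}
    (h : Tendsto (fun N => f (ces N)) (hyperfilter ℕ) (𝓝 z)) : lim0 f = z :=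
  tendsto_nhds_unique (lim0_spec f) h

/-- the invariant mean as a linear map -/
noncomputable def limL : (E1 →L[ℂ] ℂ) →ₗ[ℂ] ℂ where
  toFun := lim0
  map_add' := fun f g => lim0_eq ((lim0_spec f).add (lim0_spec g))
  map_smul' := fun c f => lim0_eq ((lim0_spec f).const_smul c)

lemma limL_norm (f : E1 →L[ℂ] ℂ) : ‖limL f‖ ≤ ‖f‖ := by
  refine le_of_tendsto (lim0_spec f).norm (Filter.Eventually.of_forall fun N => ?_)
  exact (f.le_opNorm _).trans (mul_le_of_le_one_right (norm_nonneg _) (norm_ces_le N))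

lemma limL_aug : limL aug = 1 := by
  apply lim0_eq
  exact tendsto_const_nhds.congr (fun N => (aug_ces N).symm)

lemma limL_zero_of {f : E1 →L[ℂ] ℂ} (h : Tendsto (fun N => f (ces N)) atTop (𝓝 0)) :
    limL f = 0 := lim0_eq (h.mono_left Nat.hyperfilter_le_atTop)

/-- the translate `x ↦ f (a x)` -/
noncomputable def tr (f : E1 →L[ℂ] ℂ) : E1 →L[ℂ] (E1 →L[ℂ] ℂ) :=
  (ContinuousLinearMap.compL ℂ E1 E1 ℂ f).comp (ContinuousLinearMap.mul ℂ E1)

lemma tr_apply (f : E1 →L[ℂ] ℂ) (a x : E1) : tr f a x = f (a * x) := rfl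

lemma tendsto_inv_N : Tendsto (fun N : ℕ => 2 * ((N : ℝ) + 1)⁻¹) atTop (𝓝 0) := by
  have := (tendsto_one_div_add_atTop_nhds_zero_nat (𝕜 := ℝ)).const_mul 2
  simpa using this

lemma limL_shift (f : E1 →L[ℂ] ℂ) : limL (tr f (e 1)) = limL f := by
  have h0 : limL (tr f (e 1) - f) = 0 := by
    apply limL_zero_of
    have hb : ∀ N : ℕ, ‖(tr f (e 1) - f) (ces N)‖ ≤ ‖f‖ * (2 * ((N : ℝ) + 1)⁻¹) := by
      intro N
      change ‖f (e 1 * ces N) - f (ces N)‖ ≤ _
      rw [← map_sub]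
      exact (f.le_opNorm _).trans (mul_le_mul_of_nonneg_left (ces_shift_norm N) (norm_nonneg _))
    refine squeeze_zero_norm hb ?_
    simpa using tendsto_inv_N.const_mul ‖f‖
  rw [map_sub, sub_eq_zero] at h0
  exact h0

lemma limL_tr_e (f : E1 →L[ℂ] ℂ) (j : ℕ) : limL (tr f (e j)) = limL f := by
  induction j with
  | zero =>
    congr 1
    apply clm_ext
    intro k
    rw [tr_apply, e0_mul]
  | succ j ih =>
    rw [← ih, ← limL_shift (tr f (e j))]
    congr 1
    apply clm_ext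
    intro k
    rw [tr_apply, tr_apply, tr_apply, ← mul_assoc, e_mul j 1]

lemma limL_tr (f : E1 →L[ℂ] ℂ) (a : E1) (ha : aug a = 1) : limL (tr f a) = limL f := by
  let G : E1 →L[ℂ] ℂ := LinearMap.mkContinuous
    (limL ∘ₗ (tr f : E1 →ₗ[ℂ] (E1 →L[ℂ] ℂ))) ‖tr f‖ (fun a => by
      refine (limL_norm _).trans ?_
      exact (tr f).le_opNorm a)
  have hG : G = limL f • aug := by
    apply clm_ext
    intro k
    change limL (tr f (e k)) = limL f * aug (e k)
    rw [limL_tr_e, aug_e, mul_one]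
  have h2 : G a = limL f * aug a := by rw [hG]; rfl
  rw [ha, mul_one] at h2
  exact h2

end E1

end Pool.Agent.H241.FA
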