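import Pool.Agent.H241.FA.Defs
import Pool.Agent.H241.FA.Ell2

set_option autoImplicit false

namespace Pool.Agent.H241.FA

open scoped ENNReal
open Finset Topology Filter E1

/-- the space `ℓ¹(ℕ) ⊕₁ ℓ¹(ℕ) = ℓ¹(ℕ ⊔ ℕ)` -/
abbrev A2 : Type := WithLp 1 (E1 × E1)

namespace A2

/-- build an element -/
def mk (a b : E1) : A2 := WithLp.toLp 1 (a, b)

@[simp] lemma mk_fst (a b : E1) : (mk a b).fst = a := rfl
@[simp] lemma mk_snd (a b : E1) : (mk a b).snd = b := rfl

lemma ext' {x y : A2} (h1 : x.fst = y.fst) (h2 : x.snd = y.snd) : x = y := by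
  apply WithLp.ofLp_injective
  exact Prod.ext h1 h2

/-- the total part -/
noncomputable def tot (x : A2) : E1 := x.fst + x.snd

@[simp] lemma tot_add (x y : A2) : tot (x + y) = tot x + tot y := by
  simp only [tot, WithLp.add_fst, WithLp.add_snd]; abel

@[simp] lemma tot_zero : tot 0 = 0 := by simp only [tot, WithLp.zero_fst, WithLp.zero_snd, add_zero]

@[simp] lemma tot_smul (c : ℂ) (x : A2) : tot (c • x) = c • tot x := by
  simp only [tot, WithLp.smul_fst, WithLp.smul_snd, smul_add]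

noncomputable instance : Mul A2 :=
  ⟨fun x y => mk (x.fst * dil (tot y)) (tot x * tot y - x.fst * dil (tot y))⟩

lemma mul_fst (x y : A2) : (x * y).fst = x.fst * dil (tot y) := rfl
lemma mul_snd (x y : A2) : (x * y).snd = tot x * tot y - x.fst * dil (tot y) := rfl
lemma tot_mul (x y : A2) : tot (x * y) = tot x * tot y := by
  unfold tot
  rw [mul_fst, mul_snd]
  unfold tot
  abel

lemma ext_tot {x y : A2} (h1 : x.fst = y.fst) (h2 : tot x = tot y) : x = y := by
  apply ext' h1
  unfold tot at h2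
  rw [h1] at h2
  exact add_left_cancel h2

lemma norm_eq (x : A2) : ‖x‖ = ‖x.fst‖ + ‖x.snd‖ := WithLp.prod_norm_eq_of_L1 x

lemma norm_tot_le (x : A2) : ‖tot x‖ ≤ ‖x‖ := by
  rw [norm_eq]; exact norm_add_le _ _

lemma norm_mul_le' (x y : A2) : ‖x * y‖ ≤ ‖x‖ * ‖y‖ := by
  have h1 : ‖x.fst * dil (tot y)‖ ≤ ‖x.fst‖ * ‖dil (tot y)‖ := norm_mul_le _ _
  have h2 : tot x * tot y - x.fst * dil (tot y)
      = x.fst * (tot y - dil (tot y)) + x.snd * tot y := by
    rw [mul_sub]
    unfold tot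
    rw [add_mul]
    abel
  have h3 : ‖x.fst * (tot y - dil (tot y)) + x.snd * tot y‖
      ≤ ‖x.fst‖ * ‖tot y - dil (tot y)‖ + ‖x.snd‖ * ‖tot y‖ :=
    (norm_add_le _ _).trans (add_le_add (norm_mul_le _ _) (norm_mul_le _ _))
  have h4 := norm_dil_add (tot y)
  have h5 := norm_tot_le y
  rw [norm_eq (x * y), mul_fst, mul_snd, h2]
  calc ‖x.fst * dil (tot y)‖ + ‖x.fst * (tot y - dil (tot y)) + x.snd * tot y‖
      ≤ ‖x.fst‖ * ‖dil (tot y)‖
        + (‖x.fst‖ * ‖tot y - dil (tot y)‖ + ‖x.snd‖ * ‖tot y‖) := add_le_add h1 h3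
    _ = ‖x‖ * ‖tot y‖ := by rw [norm_eq x, ← h4]; ring
    _ ≤ ‖x‖ * ‖y‖ := mul_le_mul_of_nonneg_left h5 (norm_nonneg _)

noncomputable instance : NonUnitalNormedRing A2 :=
  { (inferInstance : NormedAddCommGroup A2) with
    mul := (· * ·)
    left_distrib := fun a b c => by
      apply ext_tot
      · simp only [mul_fst, WithLp.add_fst, tot_add, dil_add, mul_add]
      · simp only [tot_mul, tot_add, mul_add]
    right_distrib := fun a b c => by
      apply ext_tot
      · simp only [mul_fst, WithLp.add_fst, add_mul]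
      · simp only [tot_mul, tot_add, add_mul]
    zero_mul := fun a => by
      apply ext_tot
      · simp only [mul_fst, WithLp.zero_fst, zero_mul]
      · simp only [tot_mul, tot_zero, zero_mul]
    mul_zero := fun a => by
      apply ext_tot
      · simp only [mul_fst, WithLp.zero_fst, tot_zero, dil_zero, mul_zero]
      · simp only [tot_mul, tot_zero, mul_zero]
    mul_assoc := fun a b c => by
      apply ext_tot
      · simp only [mul_fst, tot_mul, dil_mul, mul_assoc]
      · simp only [tot_mul, mul_assoc]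
    norm_mul_le := norm_mul_le' }

instance : IsScalarTower ℂ A2 A2 := ⟨fun c a b => by
  apply ext_tot
  · simp only [smul_eq_mul, mul_fst, WithLp.smul_fst, smul_mul_assoc]
  · simp only [smul_eq_mul, tot_mul, tot_smul, smul_mul_assoc]⟩

instance : SMulCommClass ℂ A2 A2 := ⟨fun c a b => by
  apply ext_tot
  · simp only [smul_eq_mul, mul_fst, WithLp.smul_fst, tot_smul, dil_smul, mul_smul_comm]
  · simp only [smul_eq_mul, tot_mul, tot_smul, mul_smul_comm]⟩

/-! ### the dual -/

/-- first coordinate -/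
noncomputable def fstL : A2 →L[ℂ] E1 := WithLp.fstL 1 ℂ E1 E1
/-- second coordinate -/
noncomputable def sndL : A2 →L[ℂ] E1 := WithLp.sndL 1 ℂ E1 E1

@[simp] lemma fstL_apply (x : A2) : fstL x = x.fst := rfl
@[simp] lemma sndL_apply (x : A2) : sndL x = x.snd := rfl

/-- first inclusion -/
noncomputable def inlL : E1 →L[ℂ] A2 :=
  LinearMap.mkContinuous
    { toFun := fun a => mk a 0
      map_add' := fun a b => by apply ext' <;> simp
      map_smul' := fun c a => by apply ext' <;> simp } 1 (fun a => by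
        change ‖mk a 0‖ ≤ _
        rw [norm_eq, mk_fst, mk_snd, norm_zero, add_zero, one_mul])

/-- second inclusion -/
noncomputable def inrL : E1 →L[ℂ] A2 :=
  LinearMap.mkContinuous
    { toFun := fun a => mk 0 a
      map_add' := fun a b => by apply ext' <;> simp
      map_smul' := fun c a => by apply ext' <;> simp } 1 (fun a => by
        change ‖mk 0 a‖ ≤ _
        rw [norm_eq, mk_fst, mk_snd, norm_zero, zero_add, one_mul])

@[simp] lemma inlL_apply (a : E1) : inlL a = mk a 0 := rfl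
@[simp] lemma inrL_apply (a : E1) : inrL a = mk 0 a := rfl

lemma norm_inl (a : E1) : ‖mk a 0‖ = ‖a‖ := by
  rw [norm_eq, mk_fst, mk_snd, norm_zero, add_zero]

lemma norm_inr (a : E1) : ‖mk 0 a‖ = ‖a‖ := by
  rw [norm_eq, mk_fst, mk_snd, norm_zero, zero_add]

lemma eq_add (x : A2) : x = mk x.fst 0 + mk 0 x.snd := by
  apply ext' <;> simp

lemma fun_ext {f g : A2 →L[ℂ] ℂ} (h1 : ∀ a, f (mk a 0) = g (mk a 0))
    (h2 : ∀ a, f (mk 0 a) = g (mk 0 a)) : f = g := by
  ext x
  rw [eq_add x, map_add, map_add, h1, h2]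

/-- the functional given by a pair of bounded sequences -/
noncomputable def pair2 (x : EI × EI) : A2 →L[ℂ] ℂ :=
  (pairL x.1).comp fstL + (pairL x.2).comp sndL

lemma pair2_apply (x : EI × EI) (a : A2) : pair2 x a = pairL x.1 a.fst + pairL x.2 a.snd := rfl

lemma norm_pair2 (x : EI × EI) : ‖pair2 x‖ = ‖x‖ := by
  apply le_antisymm
  · refine ContinuousLinearMap.opNorm_le_bound _ (norm_nonneg _) fun a => ?_
    rw [pair2_apply, norm_eq, mul_add]
    refine (norm_add_le _ _).trans (add_le_add ?_ ?_)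
    · refine ((pairL x.1).le_opNorm _).trans (mul_le_mul_of_nonneg_right ?_ (norm_nonneg _))
      rw [norm_pairL]
      exact norm_fst_le x
    · refine ((pairL x.2).le_opNorm _).trans (mul_le_mul_of_nonneg_right ?_ (norm_nonneg _))
      rw [norm_pairL]
      exact norm_snd_le x
  · rw [Prod.norm_def]
    refine max_le ?_ ?_
    · rw [← norm_pairL]
      refine ContinuousLinearMap.opNorm_le_bound _ (norm_nonneg _) fun a => ?_
      have h := (pair2 x).le_opNorm (mk a 0)
      rwa [pair2_apply, mk_fst, mk_snd, map_zero, add_zero, norm_inl] at h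
    · rw [← norm_pairL]
      refine ContinuousLinearMap.opNorm_le_bound _ (norm_nonneg _) fun a => ?_
      have h := (pair2 x).le_opNorm (mk 0 a)
      rwa [pair2_apply, mk_fst, mk_snd, map_zero, zero_add, norm_inr] at h

lemma pair2_surj : ∀ f : StrongDual ℂ A2, ∃ x : EI × EI, pair2 x = f := by
  intro f
  obtain ⟨x, hx⟩ := pairL_surj (f.comp inlL)
  obtain ⟨y, hy⟩ := pairL_surj (f.comp inrL)
  refine ⟨(x, y), fun_ext (fun a => ?_) (fun a => ?_)⟩
  · rw [pair2_apply, mk_fst, mk_snd, map_zero, add_zero, hx]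
    rfl
  · rw [pair2_apply, mk_fst, mk_snd, map_zero, zero_add, hy]
    rfl

/-- `ℓ^∞ ⊕ ℓ^∞` is the dual of `ℓ¹ ⊕₁ ℓ¹`, isometrically -/
noncomputable def dual2 : (EI × EI) ≃ₗᵢ[ℂ] StrongDual ℂ A2 :=
  LinearIsometryEquiv.ofSurjective
    { toFun := pair2
      map_add' := fun x y => by
        apply fun_ext <;> intro a
        · change pair2 _ _ = pair2 _ _ + pair2 _ _
          simp only [pair2_apply, Prod.fst_add, Prod.snd_add, pairL_add]
          simp only [mk_fst, mk_snd, map_zero, add_zero]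
          rfl
        · change pair2 _ _ = pair2 _ _ + pair2 _ _
          simp only [pair2_apply, Prod.fst_add, Prod.snd_add, pairL_add]
          simp only [mk_fst, mk_snd, map_zero, zero_add]
          rfl
      map_smul' := fun c x => by
        apply fun_ext <;> intro a
        · change pair2 _ _ = c * pair2 _ _
          simp only [pair2_apply, Prod.smul_fst, Prod.smul_snd, pairL_smul]
          simp only [mk_fst, mk_snd, map_zero, add_zero]
          rfl
        · change pair2 _ _ = c * pair2 _ _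
          simp only [pair2_apply, Prod.smul_fst, Prod.smul_snd, pairL_smul]
          simp only [mk_fst, mk_snd, map_zero, zero_add]
          rfl
      norm_map' := norm_pair2 } pair2_surj

lemma dual2_apply (x : EI × EI) (a : A2) : dual2 x a = pairL x.1 a.fst + pairL x.2 a.snd := rfl

lemma dual2_one (a : A2) : dual2 1 a = aug (tot a) := by
  rw [dual2_apply]
  unfold tot
  rw [map_add]
  rfl

end A2

open A2

/-- the forgetting F-algebra on `ℓ¹(ℕ) ⊕₁ ℓ¹(ℕ)` -/
noncomputable def alg : FAlgebra where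
  A := A2
  M := EI × EI
  pair := fun x a => dual2 x a
  pair_add := fun x y a => by rw [map_add]; rfl
  pair_smul := fun c x a => by rw [map_smul]; rfl
  surj := fun φ => ⟨dual2.symm φ, fun a => by rw [LinearIsometryEquiv.apply_symm_apply]⟩
  repr := fun x => ⟨dual2 x, fun _ => rfl⟩
  norm_pair_le := fun x a => by
    have h := (dual2 x).le_opNorm a
    rwa [LinearIsometryEquiv.norm_map] at h
  norm_le := fun x C hC h => by
    rw [← LinearIsometryEquiv.norm_map dual2 x]
    exact ContinuousLinearMap.opNorm_le_bound _ hC h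
  e_mul := by
    intro a b
    rw [dual2_one, dual2_one, dual2_one, tot_mul, aug_mul]

lemma alg_e (a : A2) : alg.pair 1 a = aug (tot a) := dual2_one a

lemma alg_pos {s : A2} (hs : s ∈ alg.P₁) : Pos s.fst ∧ Pos s.snd ∧ aug (tot s) = 1 := by
  refine ⟨fun k => ?_, fun k => ?_, ?_⟩
  · have h : 0 ≤ (dual2 (star ((lp.single ∞ k (1 : ℂ) : EI), (0 : EI))
        * ((lp.single ∞ k (1 : ℂ) : EI), (0 : EI))) s).re ∧
        (dual2 (star ((lp.single ∞ k (1 : ℂ) : EI), (0 : EI))
        * ((lp.single ∞ k (1 : ℂ) : EI), (0 : EI))) s).im = 0 :=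
      hs.1 ((lp.single ∞ k (1 : ℂ) : EI), (0 : EI))
    have h2 : dual2 (star ((lp.single ∞ k (1 : ℂ) : EI), (0 : EI))
        * ((lp.single ∞ k (1 : ℂ) : EI), (0 : EI))) s = s.fst k := by
      rw [dual2_apply]
      have h3 : (star ((lp.single ∞ k (1 : ℂ) : EI), (0 : EI))
        * ((lp.single ∞ k (1 : ℂ) : EI), (0 : EI))).2 = 0 := by
        simp
      have h4 : (star ((lp.single ∞ k (1 : ℂ) : EI), (0 : EI))
        * ((lp.single ∞ k (1 : ℂ) : EI), (0 : EI))).1
          = star (lp.single ∞ k (1 : ℂ) : EI) * (lp.single ∞ k (1 : ℂ) : EI) := rfl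
      rw [h3, h4]
      have h5 : pairL (0 : EI) s.snd = 0 := by
        rw [pairL_apply]; simp
      rw [h5, add_zero, pairL_apply, tsum_eq_single k]
      · simp [lp.infty_coeFn_mul]
      · intro j hj
        simp [lp.infty_coeFn_mul, hj]
    rw [h2] at h
    exact h
  · have h : 0 ≤ (dual2 (star ((0 : EI), (lp.single ∞ k (1 : ℂ) : EI))
        * ((0 : EI), (lp.single ∞ k (1 : ℂ) : EI))) s).re ∧
        (dual2 (star ((0 : EI), (lp.single ∞ k (1 : ℂ) : EI))
        * ((0 : EI), (lp.single ∞ k (1 : ℂ) : EI))) s).im = 0 :=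
      hs.1 ((0 : EI), (lp.single ∞ k (1 : ℂ) : EI))
    have h2 : dual2 (star ((0 : EI), (lp.single ∞ k (1 : ℂ) : EI))
        * ((0 : EI), (lp.single ∞ k (1 : ℂ) : EI))) s = s.snd k := by
      rw [dual2_apply]
      have h3 : (star ((0 : EI), (lp.single ∞ k (1 : ℂ) : EI))
        * ((0 : EI), (lp.single ∞ k (1 : ℂ) : EI))).1 = 0 := by
        simp
      have h4 : (star ((0 : EI), (lp.single ∞ k (1 : ℂ) : EI))
        * ((0 : EI), (lp.single ∞ k (1 : ℂ) : EI))).2
          = star (lp.single ∞ k (1 : ℂ) : EI) * (lp.single ∞ k (1 : ℂ) : EI) := rfl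
      rw [h3, h4]
      have h5 : pairL (0 : EI) s.fst = 0 := by
        rw [pairL_apply]; simp
      rw [h5, zero_add, pairL_apply, tsum_eq_single k]
      · simp [lp.infty_coeFn_mul]
      · intro j hj
        simp [lp.infty_coeFn_mul, hj]
    rw [h2] at h
    exact h
  · have h : alg.pair 1 s = 1 := hs.2
    rw [alg_e] at h
    exact h

lemma sq_nonneg' (x : EI) (k : ℕ) :
    0 ≤ ((star x * x) k).re ∧ ((star x * x) k).im = 0 := by
  rw [lp.infty_coeFn_mul, Pi.mul_apply, lp.star_apply]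
  have : star (x k) * x k = ((‖x k‖ ^ 2 : ℝ) : ℂ) := by
    rw [Complex.star_def, ← Complex.normSq_eq_conj_mul_self, Complex.normSq_eq_norm_sq]
  rw [this]
  exact ⟨by rw [Complex.ofReal_re]; positivity, Complex.ofReal_im _⟩

lemma inl_mem (k : ℕ) : A2.mk (e k) 0 ∈ alg.P₁ := by
  refine ⟨fun x => ?_, ?_⟩
  · obtain ⟨x1, x2⟩ : EI × EI := x
    change 0 ≤ (dual2 (star x1 * x1, star x2 * x2) (A2.mk (e k) 0)).re ∧
      (dual2 (star x1 * x1, star x2 * x2) (A2.mk (e k) 0)).im = 0
    rw [dual2_apply]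
    rw [A2.mk_fst, A2.mk_snd, map_zero, add_zero, pairL_e]
    exact sq_nonneg' x1 k
  · rw [alg_e]
    unfold tot
    rw [A2.mk_fst, A2.mk_snd, add_zero, aug_e]

lemma inr_mem (k : ℕ) : A2.mk 0 (e k) ∈ alg.P₁ := by
  refine ⟨fun x => ?_, ?_⟩
  · obtain ⟨x1, x2⟩ : EI × EI := x
    change 0 ≤ (dual2 (star x1 * x1, star x2 * x2) (A2.mk 0 (e k))).re ∧
      (dual2 (star x1 * x1, star x2 * x2) (A2.mk 0 (e k))).im = 0
    rw [dual2_apply]
    rw [A2.mk_fst, A2.mk_snd, map_zero, zero_add, pairL_e]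
    exact sq_nonneg' x2 k
  · rw [alg_e]
    unfold tot
    rw [A2.mk_fst, A2.mk_snd, zero_add, aug_e]

/-! ### the crucial function on `P₁` -/

/-- `π(s) = a(s) / (a(s) + χ(s))`, with `a(s)` the mass of the first part of `s` and `χ` the
character `s ↦ ∑ 2⁻ⁿ (s₁(n) + s₂(n))` -/
noncomputable def ratio (s : A2) : ℝ :=
  (aug s.fst).re / ((aug s.fst).re + (psi (tot s)).re)

lemma ratio_facts {s : A2} (hs : s ∈ alg.P₁) :
    0 ≤ (aug s.fst).re ∧ (aug s.fst).im = 0 ∧ 0 < (psi (tot s)).re ∧ (psi (tot s)).im = 0 := by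
  obtain ⟨h1, h2, h3⟩ := alg_pos hs
  have h4 := h1.aug_nonneg
  have h5 := Pos.psi_pos (Pos.add h1 h2) h3
  exact ⟨h4.1, h4.2, h5.1, h5.2⟩

lemma ratio_mem {s : A2} (hs : s ∈ alg.P₁) : ratio s ∈ Set.Icc (0 : ℝ) 1 := by
  obtain ⟨h1, _, h3, _⟩ := ratio_facts hs
  unfold ratio
  exact ⟨div_nonneg h1 (by linarith), (div_le_one (by linarith)).mpr (by linarith)⟩

lemma ratio_mul {s t : A2} (hs : s ∈ alg.P₁) (ht : t ∈ alg.P₁) : ratio (s * t) = ratio s := by
  obtain ⟨h1, h2, h3, h4⟩ := ratio_facts hs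
  obtain ⟨h1', h2', h3', h4'⟩ := ratio_facts ht
  unfold ratio
  rw [tot_mul, psi_mul, A2.mul_fst, aug_mul, aug_dil, Complex.mul_re, Complex.mul_re, h2, h4,
    zero_mul, sub_zero, sub_zero, ← add_mul]
  exact mul_div_mul_right _ _ h3'.ne'

lemma ratio_cont : ContinuousOn ratio alg.P₁ := by
  unfold ratio
  have h1 : Continuous fun s : A2 => (aug s.fst).re :=
    Complex.continuous_re.comp (aug.continuous.comp fstL.continuous)
  have h2 : Continuous fun s : A2 => (psi (tot s)).re :=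
    Complex.continuous_re.comp (psi.continuous.comp (fstL.continuous.add sndL.continuous))
  refine h1.continuousOn.div (h1.add h2).continuousOn fun s hs => ?_
  obtain ⟨h1, _, h3, _⟩ := ratio_facts hs
  linarith

lemma ratio_inl : ratio (A2.mk (e 0) 0) = 1 / 2 := by
  unfold ratio tot
  rw [A2.mk_fst, A2.mk_snd, add_zero, aug_e, psi_e0]
  norm_num

lemma ratio_inr : ratio (A2.mk 0 (e 0)) = 0 := by
  unfold ratio
  rw [A2.mk_fst, map_zero]
  simp

/-! ### the invariant mean -/

/-- the mean on `A*` -/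
noncomputable def mean : StrongDual ℂ A2 →ₗ[ℂ] ℂ where
  toFun := fun F => limL (F.comp inrL)
  map_add' := fun F G => by
    rw [← map_add]; rfl
  map_smul' := fun c F => by
    rw [RingHom.id_apply, ← map_smul]; rfl

lemma mean_norm (F : StrongDual ℂ A2) : ‖mean F‖ ≤ ‖F‖ := by
  refine (limL_norm _).trans ?_
  refine ContinuousLinearMap.opNorm_le_bound _ (norm_nonneg _) fun a => ?_
  have h := F.le_opNorm (A2.mk 0 a)
  rw [norm_inr] at h
  exact h

lemma mean_one : mean (dual2 1) = 1 := by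
  have : (dual2 1 : A2 →L[ℂ] ℂ).comp inrL = aug := by
    apply clm_ext
    intro k
    change dual2 1 (A2.mk 0 (e k)) = aug (e k)
    rw [dual2_one]
    unfold tot
    rw [A2.mk_fst, A2.mk_snd, zero_add]
  change limL ((dual2 1 : A2 →L[ℂ] ℂ).comp inrL) = 1
  rw [this, limL_aug]

lemma mean_act (F F' : StrongDual ℂ A2) (s : A2) (hs : aug (tot s) = 1)
    (hF : ∀ x, F' x = F (s * x)) : mean F' = mean F := by
  -- the part `y ↦ F (s₁ D y, - s₁ D y)` has vanishing mean
  let L : E1 →L[ℂ] E1 := (ContinuousLinearMap.mul ℂ E1 s.fst).comp dilL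
  let G : E1 →L[ℂ] ℂ := F.comp ((inlL.comp L) - (inrL.comp L))
  have hG : limL G = 0 := by
    apply limL_zero_of
    have hb : ∀ N : ℕ, ‖G (ces N)‖ ≤ ‖F.comp ((inlL.comp (ContinuousLinearMap.mul ℂ E1 s.fst))
        - (inrL.comp (ContinuousLinearMap.mul ℂ E1 s.fst)))‖ * (2 * ((N : ℝ) + 1)⁻¹) := by
      intro N
      have h1 : G (ces N) = (F.comp ((inlL.comp (ContinuousLinearMap.mul ℂ E1 s.fst))
        - (inrL.comp (ContinuousLinearMap.mul ℂ E1 s.fst)))) (dil (ces N)) := rfl
      rw [h1]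
      exact (ContinuousLinearMap.le_opNorm _ _).trans
        (mul_le_mul_of_nonneg_left (norm_dil_ces N) (norm_nonneg _))
    refine squeeze_zero_norm hb ?_
    simpa using tendsto_inv_N.const_mul _
  have h2 : (F' : A2 →L[ℂ] ℂ).comp inrL = tr (F.comp inrL) (tot s) + G := by
    apply clm_ext
    intro k
    change F' (A2.mk 0 (e k)) = F (A2.mk 0 (tot s * e k))
      + F (A2.mk (s.fst * dil (e k)) 0 - A2.mk 0 (s.fst * dil (e k)))
    rw [← map_add, hF]
    congr 1
    apply A2.ext'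
    · rw [A2.mul_fst]
      simp [tot]
    · rw [A2.mul_snd]
      simp only [tot, A2.mk_fst, A2.mk_snd, zero_add, WithLp.add_snd, WithLp.sub_snd, zero_sub]
      exact sub_eq_add_neg _ _
  change limL ((F' : A2 →L[ℂ] ℂ).comp inrL) = limL (F.comp inrL)
  rw [h2, map_add, hG, add_zero, limL_tr _ _ hs]

/-- the dual of the algebra, and every subspace of it, has a TLIM -/
theorem alg_TLIM (V : Set alg.M) : alg.HasTLIM V := by
  refine ⟨mean ∘ₗ (dual2.toLinearEquiv : (EI × EI) →ₗ[ℂ] StrongDual ℂ A2), fun f _ => ?_,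
    mean_one, fun f _ a ha g hg => ?_⟩
  · refine (mean_norm (dual2 f)).trans ?_
    rw [LinearIsometryEquiv.norm_map]
    exact le_rfl
  · exact mean_act (dual2 f) (dual2 g) a (alg_pos ha).2.2 hg

end Pool.Agent.H241.FA
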