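import Mathlib

set_option autoImplicit false

namespace Pool.Agent.H241.FA

open Module

/-- An F-algebra: a (complex) Banach algebra `A` together with a unital C*-algebra `M` and a
bilinear pairing `pair x a = ⟨a, x⟩` (`x ∈ M`, `a ∈ A`) that identifies `M` isometrically with the
dual of the Banach space `A` (so that `M` is a W*-algebra and `A` its predual), such that the
identity of `M` is a multiplicative linear functional on `A`. -/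
structure FAlgebra where
  /-- the Banach algebra -/
  A : Type
  /-- the W*-algebra -/
  M : Type
  [ring : NonUnitalNormedRing A]
  [space : NormedSpace ℂ A]
  [tower : IsScalarTower ℂ A A]
  [smulComm : SMulCommClass ℂ A A]
  [complete : CompleteSpace A]
  [cstar : CStarAlgebra M]
  /-- `pair x a = ⟨a, x⟩` -/
  pair : M → A → ℂ
  pair_add : ∀ x y a, pair (x + y) a = pair x a + pair y a
  pair_smul : ∀ (c : ℂ) x a, pair (c • x) a = c * pair x a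
  /-- every bounded linear functional on `A` is given by an element of `M`, and conversely -/
  surj : ∀ φ : StrongDual ℂ A, ∃ x, ∀ a, pair x a = φ a
  repr : ∀ x, ∃ φ : StrongDual ℂ A, ∀ a, pair x a = φ a
  /-- the norm of `M` is the dual norm -/
  norm_pair_le : ∀ x a, ‖pair x a‖ ≤ ‖x‖ * ‖a‖
  norm_le : ∀ x (C : ℝ), 0 ≤ C → (∀ a, ‖pair x a‖ ≤ C * ‖a‖) → ‖x‖ ≤ C
  /-- the identity of `M` is multiplicative on `A` -/
  e_mul : ∀ a b, pair 1 (a * b) = pair 1 a * pair 1 b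

attribute [instance] FAlgebra.ring FAlgebra.space FAlgebra.tower FAlgebra.smulComm
  FAlgebra.complete FAlgebra.cstar

namespace FAlgebra

variable (𝒜 : FAlgebra)

/-- `S = P₁(A)`: the elements `a` of `A` that are positive on `M` and satisfy `⟨a, e⟩ = 1` -/
def P₁ : Set 𝒜.A :=
  {a | (∀ x : 𝒜.M, 0 ≤ (𝒜.pair (star x * x) a).re ∧ (𝒜.pair (star x * x) a).im = 0) ∧
    𝒜.pair 1 a = 1}

/-- `g = f · a`, that is `⟨x, g⟩ = ⟨a x, f⟩` for all `x` in `A` -/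
def IsAct (f : 𝒜.M) (a : 𝒜.A) (g : 𝒜.M) : Prop := ∀ x : 𝒜.A, 𝒜.pair g x = 𝒜.pair f (a * x)

/-- the image of the unit ball of `A` under `a ↦ f · a` -/
def ballImage (f : 𝒜.M) : Set 𝒜.M := {g | ∃ a : 𝒜.A, ‖a‖ ≤ 1 ∧ 𝒜.IsAct f a g}

/-- `AP(A)`, the almost periodic functionals: those `f` for which `a ↦ f · a` is compact -/
def AP : Set 𝒜.M := {f | IsCompact (closure (𝒜.ballImage f))}

/-- `WAP(A)`, the weakly almost periodic functionals: those `f` for which `a ↦ f · a` is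
weakly compact -/
def WAP : Set 𝒜.M := {f | IsCompact (closure (toWeakSpace ℂ 𝒜.M '' 𝒜.ballImage f))}

/-- a topological left invariant mean (TLIM) on a subspace `V` of `M = A*` that contains `e = 1`
and is invariant under `f ↦ f · a`: a linear functional `m` with `|m f| ≤ ‖f‖` on `V` and
`m e = 1`, and with `m (f · a) = m f` for `f ∈ V`, `a ∈ P₁(A)`. (Only the restriction of `m` to
`V` matters, and every linear functional on `V` is such a restriction.) -/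
def HasTLIM (V : Set 𝒜.M) : Prop :=
  ∃ m : 𝒜.M →ₗ[ℂ] ℂ, (∀ f ∈ V, ‖m f‖ ≤ ‖f‖) ∧ m 1 = 1 ∧
    ∀ f ∈ V, ∀ a ∈ 𝒜.P₁, ∀ g, 𝒜.IsAct f a g → m g = m f

section subspaces

variable {𝕜 : Type} [RCLike 𝕜] {E : Type} [AddCommGroup E] [Module 𝕜 E]

/-- `𝓛ₙ(X)`: the `n`-dimensional subspaces of `E` contained in `X` -/
def Ln (n : ℕ) (X : Set E) : Set (Submodule 𝕜 E) :=
  {L | FiniteDimensional 𝕜 L ∧ finrank 𝕜 L = n ∧ (L : Set E) ⊆ X}

/-- `T` is a linear representation of the semigroup `S = P₁(A)` on `E` (the values of `T`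
outside `S` are irrelevant) -/
def IsRep (T : 𝒜.A → E →ₗ[𝕜] E) : Prop :=
  ∀ s ∈ 𝒜.P₁, ∀ t ∈ 𝒜.P₁, T (s * t) = T s ∘ₗ T t

/-- `X` is `n`-consistent -/
def IsConsistent (T : 𝒜.A → E →ₗ[𝕜] E) (n : ℕ) (X : Set E) : Prop :=
  (Ln (𝕜 := 𝕜) n X).Nonempty ∧
    ∀ L ∈ Ln (𝕜 := 𝕜) n X, ∀ s ∈ 𝒜.P₁, L.map (T s) ∈ Ln (𝕜 := 𝕜) n X

/-- the conclusion common to the properties `(Fₙ)`, `(Fₙᴬ)`, `(Fₙᵂ)` for one representation -/
def FixesSubspace [TopologicalSpace E] (T : 𝒜.A → E →ₗ[𝕜] E) (n : ℕ) : Prop :=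
  ∀ X : Set E, 𝒜.IsConsistent T n X →
    ∀ H : Submodule 𝕜 E, IsClosed (H : Set E) → (∀ s ∈ 𝒜.P₁, ∀ x ∈ H, T s x ∈ H) →
      FiniteDimensional 𝕜 (E ⧸ H) → finrank 𝕜 (E ⧸ H) = n →
      (∀ x : E, IsCompact ({y : E | y - x ∈ H} ∩ X)) →
      ∃ L₀ ∈ Ln (𝕜 := 𝕜) n X, ∀ s ∈ 𝒜.P₁, L₀.map (T s) = L₀

/-- the same conclusion, asked only for those `X` all of whose slices `(x + H) ∩ X` are convex as
well as compact -/
def FixesSubspaceConvex [TopologicalSpace E] [Module ℝ E] (T : 𝒜.A → E →ₗ[𝕜] E) (n : ℕ) :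
    Prop :=
  ∀ X : Set E, 𝒜.IsConsistent T n X →
    ∀ H : Submodule 𝕜 E, IsClosed (H : Set E) → (∀ s ∈ 𝒜.P₁, ∀ x ∈ H, T s x ∈ H) →
      FiniteDimensional 𝕜 (E ⧸ H) → finrank 𝕜 (E ⧸ H) = n →
      (∀ x : E, IsCompact ({y : E | y - x ∈ H} ∩ X)) →
      (∀ x : E, Convex ℝ ({y : E | y - x ∈ H} ∩ X)) →
      ∃ L₀ ∈ Ln (𝕜 := 𝕜) n X, ∀ s ∈ 𝒜.P₁, L₀.map (T s) = L₀

lemma FixesSubspace.convex [TopologicalSpace E] [Module ℝ E] {T : 𝒜.A → E →ₗ[𝕜] E} {n : ℕ}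
    (h : 𝒜.FixesSubspace T n) : 𝒜.FixesSubspaceConvex T n :=
  fun X hX H h1 h2 h3 h4 h5 _ => h X hX H h1 h2 h3 h4 h5

end subspaces

/-- Property `(Fₙᴬ)`, over the scalar field `𝕜` (`ℝ` or `ℂ`) -/
def PropFA (𝕜 : Type) [RCLike 𝕜] (n : ℕ) : Prop :=
  ∀ (E : Type) [AddCommGroup E] [Module 𝕜 E] [UniformSpace E] [IsUniformAddGroup E]
    [ContinuousSMul 𝕜 E] [T2Space E] [Module ℝ E] [IsScalarTower ℝ 𝕜 E]
    [LocallyConvexSpace ℝ E] (T : 𝒜.A → E →ₗ[𝕜] E),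
    𝒜.IsRep T →
    (∀ x : E, ContinuousOn (fun s => T s x) 𝒜.P₁) →
    (∀ K : Set E, IsCompact K → EquicontinuousOn (fun (s : 𝒜.P₁) (x : E) => T s x) K) →
    𝒜.FixesSubspace T n

/-- The (weaker) variant of `(Fₙᴬ)` in which the slices `(x + H) ∩ X` are also assumed to be
convex -/
def PropFAConvex (𝕜 : Type) [RCLike 𝕜] (n : ℕ) : Prop :=
  ∀ (E : Type) [AddCommGroup E] [Module 𝕜 E] [UniformSpace E] [IsUniformAddGroup E]
    [ContinuousSMul 𝕜 E] [T2Space E] [Module ℝ E] [IsScalarTower ℝ 𝕜 E]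
    [LocallyConvexSpace ℝ E] (T : 𝒜.A → E →ₗ[𝕜] E),
    𝒜.IsRep T →
    (∀ x : E, ContinuousOn (fun s => T s x) 𝒜.P₁) →
    (∀ K : Set E, IsCompact K → EquicontinuousOn (fun (s : 𝒜.P₁) (x : E) => T s x) K) →
    𝒜.FixesSubspaceConvex T n

/-- Property `(Fₙᵂ)`, over the scalar field `𝕜` (`ℝ` or `ℂ`) -/
def PropFW (𝕜 : Type) [RCLike 𝕜] (n : ℕ) : Prop :=
  ∀ (E : Type) [AddCommGroup E] [Module 𝕜 E] [TopologicalSpace E] [IsTopologicalAddGroup E]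
    [ContinuousSMul 𝕜 E] [T2Space E] [Module ℝ E] [IsScalarTower ℝ 𝕜 E]
    [LocallyConvexSpace ℝ E] (T : 𝒜.A → E →ₗ[𝕜] E),
    𝒜.IsRep T →
    (∀ x : E, ContinuousOn (fun s => T s x) 𝒜.P₁) →
    (∀ K : Set E, IsCompact K →
      ∀ g ∈ closure (Set.range fun (s : 𝒜.P₁) (x : K) => T s (x : E)), Continuous g) →
    𝒜.FixesSubspace T n

/-- The (weaker) variant of `(Fₙᵂ)` in which the slices `(x + H) ∩ X` are also assumed to be
convex -/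
def PropFWConvex (𝕜 : Type) [RCLike 𝕜] (n : ℕ) : Prop :=
  ∀ (E : Type) [AddCommGroup E] [Module 𝕜 E] [TopologicalSpace E] [IsTopologicalAddGroup E]
    [ContinuousSMul 𝕜 E] [T2Space E] [Module ℝ E] [IsScalarTower ℝ 𝕜 E]
    [LocallyConvexSpace ℝ E] (T : 𝒜.A → E →ₗ[𝕜] E),
    𝒜.IsRep T →
    (∀ x : E, ContinuousOn (fun s => T s x) 𝒜.P₁) →
    (∀ K : Set E, IsCompact K →
      ∀ g ∈ closure (Set.range fun (s : 𝒜.P₁) (x : K) => T s (x : E)), Continuous g) →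
    𝒜.FixesSubspaceConvex T n

lemma PropFA.convex {𝕜 : Type} [RCLike 𝕜] {n : ℕ} (h : 𝒜.PropFA 𝕜 n) : 𝒜.PropFAConvex 𝕜 n := by
  intro E _ _ _ _ _ _ _ _ _ T h1 h2 h3
  exact FixesSubspace.convex 𝒜 (h E T h1 h2 h3)

lemma PropFW.convex {𝕜 : Type} [RCLike 𝕜] {n : ℕ} (h : 𝒜.PropFW 𝕜 n) : 𝒜.PropFWConvex 𝕜 n := by
  intro E _ _ _ _ _ _ _ _ _ T h1 h2 h3
  exact FixesSubspace.convex 𝒜 (h E T h1 h2 h3)

end FAlgebra

end Pool.Agent.H241.FA
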