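import Mathlib

set_option autoImplicit false

namespace Pool.Agent.H241.FA

open scoped ENNReal
open Finset

/-- the Banach space `ℓ¹(ℕ)` -/
abbrev E1 : Type := lp (fun _ : ℕ => ℂ) 1

namespace E1

lemma hasSum_norm (x : E1) : HasSum (fun i => ‖x i‖) ‖x‖ := by
  have := lp.hasSum_norm (p := 1) (by simp) x
  simpa using this

lemma summable_norm (x : E1) : Summable (fun i => ‖x i‖) := (hasSum_norm x).summable

lemma norm_eq (x : E1) : ‖x‖ = ∑' i, ‖x i‖ := (hasSum_norm x).tsum_eq.symm

lemma mem_of_summable (f : ℕ → ℂ) (hf : Summable (fun i => ‖f i‖)) :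
    Memℓp f (1 : ℝ≥0∞) := by
  refine memℓp_gen ?_
  simpa using hf

/-- an element of `ℓ¹` from an absolutely summable family -/
noncomputable def mk (f : ℕ → ℂ) (hf : Summable (fun i => ‖f i‖)) : E1 :=
  ⟨f, mem_of_summable f hf⟩

@[simp] lemma mk_apply (f : ℕ → ℂ) (hf : Summable (fun i => ‖f i‖)) (i : ℕ) :
    mk f hf i = f i := rfl

/-- coefficients of the convolution product -/
noncomputable def cf (a b : E1) (n : ℕ) : ℂ := ∑ kl ∈ antidiagonal n, a kl.1 * b kl.2

lemma summable_cf (a b : E1) : Summable (fun n => ‖cf a b n‖) :=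
  summable_norm_sum_mul_antidiagonal_of_summable_norm (summable_norm a) (summable_norm b)

noncomputable instance : Mul E1 := ⟨fun a b => mk (cf a b) (summable_cf a b)⟩

lemma mul_apply (a b : E1) (n : ℕ) :
    (a * b) n = ∑ kl ∈ antidiagonal n, a kl.1 * b kl.2 := rfl

/-- the power series with the same coefficients -/
noncomputable def ps (a : E1) : PowerSeries ℂ := PowerSeries.mk (fun n => a n)

lemma ps_injective : Function.Injective ps := by
  intro a b h
  apply lp.ext
  funext n
  have := congrArg (PowerSeries.coeff (R := ℂ) n) h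
  simpa [ps] using this

lemma ps_mul (a b : E1) : ps (a * b) = ps a * ps b := by
  ext n
  rw [PowerSeries.coeff_mul]
  simp [ps, mul_apply]

lemma norm_mul_le' (a b : E1) : ‖a * b‖ ≤ ‖a‖ * ‖b‖ := by
  have ha := summable_norm a
  have hb := summable_norm b
  have ha' : Summable (fun i => ‖‖a i‖‖) := by simpa using ha
  have hb' : Summable (fun i => ‖‖b i‖‖) := by simpa using hb
  rw [norm_eq a, norm_eq b, norm_eq (a * b),
    tsum_mul_tsum_eq_tsum_sum_antidiagonal_of_summable_norm ha' hb']
  refine Summable.tsum_le_tsum (fun n => ?_) (summable_norm (a * b)) ?_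
  · rw [mul_apply]
    refine (norm_sum_le _ _).trans (Finset.sum_le_sum fun kl _ => ?_)
    rw [norm_mul]
  · have := summable_norm_sum_mul_antidiagonal_of_summable_norm ha' hb'
    exact this.of_norm

noncomputable instance : NonUnitalNormedRing E1 :=
  { (inferInstance : NormedAddCommGroup E1) with
    mul := (· * ·)
    left_distrib := fun a b c => by
      apply lp.ext
      funext n
      simp only [mul_apply, lp.coeFn_add, Pi.add_apply, mul_add, Finset.sum_add_distrib]
    right_distrib := fun a b c => by
      apply lp.ext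
      funext n
      simp only [mul_apply, lp.coeFn_add, Pi.add_apply, add_mul, Finset.sum_add_distrib]
    zero_mul := fun a => by
      apply lp.ext
      funext n
      simp only [mul_apply, lp.coeFn_zero, Pi.zero_apply, zero_mul, Finset.sum_const_zero]
    mul_zero := fun a => by
      apply lp.ext
      funext n
      simp only [mul_apply, lp.coeFn_zero, Pi.zero_apply, mul_zero, Finset.sum_const_zero]
    mul_assoc := fun a b c => by
      apply ps_injective
      simp only [ps_mul, mul_assoc]
    norm_mul_le := norm_mul_le' }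

instance : IsScalarTower ℂ E1 E1 := ⟨fun c a b => by
  apply lp.ext
  funext n
  simp only [smul_eq_mul, mul_apply, lp.coeFn_smul, Pi.smul_apply, Finset.mul_sum, mul_assoc]⟩

instance : SMulCommClass ℂ E1 E1 := ⟨fun c a b => by
  apply lp.ext
  funext n
  simp only [smul_eq_mul, mul_apply, lp.coeFn_smul, Pi.smul_apply, Finset.mul_sum]
  refine Finset.sum_congr rfl fun kl _ => ?_
  ring⟩

/-- the unit vectors -/
noncomputable def e (k : ℕ) : E1 := lp.single 1 k (1 : ℂ)

lemma e_apply (k i : ℕ) : e k i = if i = k then 1 else 0 := by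
  unfold e
  rw [lp.single_apply]
  by_cases h : i = k
  · subst h; simp
  · simp [h]

lemma norm_e (k : ℕ) : ‖e k‖ = 1 := by
  unfold e
  rw [lp.norm_single (by norm_num)]
  simp

/-- `e j * e k = e (j + k)` -/
lemma e_mul (j k : ℕ) : e j * e k = e (j + k) := by
  apply lp.ext
  funext n
  rw [mul_apply, e_apply]
  have : ∀ kl ∈ antidiagonal n, e j kl.1 * e k kl.2
      = if kl = (j, k) then 1 else 0 := by
    intro kl _
    rw [e_apply, e_apply]
    by_cases h1 : kl.1 = j <;> by_cases h2 : kl.2 = k <;> simp [h1, h2, Prod.ext_iff]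
  rw [Finset.sum_congr rfl this]
  simp only [Finset.sum_ite_eq', Finset.HasAntidiagonal.mem_antidiagonal]
  by_cases h : j + k = n
  · simp [h]
  · rw [if_neg h, if_neg (fun h' => h h'.symm)]

lemma hasSum_e (a : E1) : HasSum (fun k => a k • e k) a := by
  have := lp.hasSum_single (p := 1) (by simp) a
  have h2 : (fun k => a k • e k) = fun i => lp.single 1 i (a i) := by
    funext i
    apply lp.ext
    funext n
    rw [lp.coeFn_smul, Pi.smul_apply, e_apply, lp.single_apply]
    by_cases h : n = i
    · subst h; simp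
    · simp [h]
  rw [h2]
  exact this

/-- continuous linear maps out of `ℓ¹` agreeing on the unit vectors are equal -/
lemma clm_ext {F : Type*} [AddCommMonoid F] [Module ℂ F] [TopologicalSpace F] [T2Space F]
    (f g : E1 →L[ℂ] F) (h : ∀ k, f (e k) = g (e k)) : f = g := by
  ext a
  have h1 := (hasSum_e a).mapL f
  have h2 := (hasSum_e a).mapL g
  refine h1.unique ?_
  convert h2 using 2 with k
  simp only [map_smul, h]

/-! ### the dual of `ℓ¹` -/

/-- `ℓ^∞(ℕ)` -/
abbrev EI : Type := lp (fun _ : ℕ => ℂ) ∞

lemma norm_apply_le_EI (x : EI) (k : ℕ) : ‖x k‖ ≤ ‖x‖ := lp.norm_apply_le_norm (by simp) x k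

lemma summable_pair (x : EI) (a : E1) : Summable (fun k => x k * a k) := by
  refine Summable.of_norm_bounded ((summable_norm a).mul_left ‖x‖) fun k => ?_
  rw [norm_mul]
  exact mul_le_mul_of_nonneg_right (norm_apply_le_EI x k) (norm_nonneg _)

/-- the functional on `ℓ¹` given by a bounded sequence -/
noncomputable def pairL (x : EI) : E1 →L[ℂ] ℂ :=
  LinearMap.mkContinuous
    { toFun := fun a => ∑' k, x k * a k
      map_add' := fun a b => by
        simp only [lp.coeFn_add, Pi.add_apply, mul_add]
        exact (summable_pair x a).tsum_add (summable_pair x b)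
      map_smul' := fun c a => by
        simp only [lp.coeFn_smul, Pi.smul_apply, smul_eq_mul, RingHom.id_apply]
        rw [← tsum_mul_left]
        exact tsum_congr fun k => by ring } ‖x‖ (fun a => by
      change ‖∑' k, x k * a k‖ ≤ _
      rw [norm_eq a, ← tsum_mul_left]
      refine tsum_of_norm_bounded ((summable_norm a).mul_left ‖x‖).hasSum fun k => ?_
      rw [norm_mul]
      exact mul_le_mul_of_nonneg_right (norm_apply_le_EI x k) (norm_nonneg _))

lemma pairL_apply (x : EI) (a : E1) : pairL x a = ∑' k, x k * a k := rfl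

lemma pairL_e (x : EI) (k : ℕ) : pairL x (e k) = x k := by
  rw [pairL_apply, tsum_eq_single k]
  · simp [e_apply]
  · intro j hj
    simp [e_apply, hj]

lemma norm_pairL (x : EI) : ‖pairL x‖ = ‖x‖ := by
  apply le_antisymm
  · exact LinearMap.mkContinuous_norm_le _ (norm_nonneg _) _
  · refine lp.norm_le_of_forall_le (norm_nonneg _) fun k => ?_
    have := (pairL x).le_opNorm (e k)
    rwa [norm_e, mul_one, pairL_e] at this

lemma pairL_add (x y : EI) : pairL (x + y) = pairL x + pairL y := by
  apply clm_ext
  intro k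
  simp only [ContinuousLinearMap.add_apply, pairL_e, lp.coeFn_add, Pi.add_apply]

lemma pairL_smul (c : ℂ) (x : EI) : pairL (c • x) = c • pairL x := by
  apply clm_ext
  intro k
  simp only [ContinuousLinearMap.smul_apply, pairL_e, lp.coeFn_smul, Pi.smul_apply]

lemma pairL_surj : ∀ f : StrongDual ℂ E1, ∃ x : EI, pairL x = f := by
  intro f
  have hb : Memℓp (fun k => f (e k)) ∞ := by
    apply memℓp_infty
    refine ⟨‖f‖, ?_⟩
    rintro _ ⟨k, rfl⟩
    have := f.le_opNorm (e k)
    rwa [norm_e, mul_one] at this
  refine ⟨⟨fun k => f (e k), hb⟩, ?_⟩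
  apply clm_ext
  intro k
  rw [pairL_e]

/-- `ℓ^∞` is the dual of `ℓ¹`, isometrically -/
noncomputable def dualIso : EI ≃ₗᵢ[ℂ] StrongDual ℂ E1 :=
  LinearIsometryEquiv.ofSurjective
    { toFun := pairL
      map_add' := pairL_add
      map_smul' := pairL_smul
      norm_map' := norm_pairL } pairL_surj

@[simp] lemma dualIso_apply (x : EI) : dualIso x = pairL x := rfl

end E1

end Pool.Agent.H241.FA
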