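import Pool.Agent.H241.FA.Alg

set_option autoImplicit false

namespace Pool.Agent.H241.FA

open Module E1

section action

variable (𝕜 : Type) [RCLike 𝕜] (n : ℕ)

/-- the underlying space `𝕜ⁿ × 𝕜ⁿ` -/
abbrev EE : Type := (Fin n → 𝕜) × (Fin n → 𝕜)

/-- `R c (u, w) = (c w, w)` -/
noncomputable def R (c : ℝ) : EE 𝕜 n →ₗ[𝕜] EE 𝕜 n where
  toFun := fun p => ((c : 𝕜) • p.2, p.2)
  map_add' := fun p q => by simp
  map_smul' := fun a p => by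
    simp only [Prod.smul_snd, RingHom.id_apply, Prod.smul_mk]
    rw [smul_comm]

lemma R_apply (c : ℝ) (p : EE 𝕜 n) : R 𝕜 n c p = ((c : 𝕜) • p.2, p.2) := rfl

lemma R_comp (c d : ℝ) : R 𝕜 n c ∘ₗ R 𝕜 n d = R 𝕜 n c := by
  ext p <;> rfl

lemma R_cont (p : EE 𝕜 n) : Continuous fun c : ℝ => R 𝕜 n c p := by
  simp only [R_apply]
  have h : Continuous fun c : ℝ => (c : 𝕜) := RCLike.continuous_ofReal
  exact (h.smul continuous_const).prodMk continuous_const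

lemma R_cont' (c : ℝ) : Continuous (R 𝕜 n c) := by
  have : (R 𝕜 n c : EE 𝕜 n → EE 𝕜 n) = fun p => ((c : 𝕜) • p.2, p.2) := rfl
  rw [this]
  fun_prop

lemma R_lip {c : ℝ} (hc : c ∈ Set.Icc (0 : ℝ) 1) : LipschitzWith 1 (R 𝕜 n c) := by
  refine LipschitzWith.of_dist_le_mul fun p q => ?_
  rw [NNReal.coe_one, one_mul, dist_eq_norm, dist_eq_norm, ← map_sub, R_apply, Prod.norm_def]
  have h : ‖(p - q).2‖ ≤ ‖p - q‖ := norm_snd_le _
  refine max_le ?_ h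
  change ‖(c : 𝕜) • (p - q).2‖ ≤ _
  rw [norm_smul, RCLike.norm_ofReal, abs_of_nonneg hc.1]
  exact (mul_le_of_le_one_left (norm_nonneg _) hc.2).trans h

/-- the representation -/
noncomputable def rep (s : alg.A) : EE 𝕜 n →ₗ[𝕜] EE 𝕜 n := R 𝕜 n (ratio s)

lemma isRep : alg.IsRep (rep 𝕜 n) := by
  intro s hs t ht
  unfold rep
  rw [R_comp]
  congr 1
  exact ratio_mul hs ht

lemma rep_cont (x : EE 𝕜 n) : ContinuousOn (fun s => rep 𝕜 n s x) alg.P₁ :=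
  (R_cont 𝕜 n x).comp_continuousOn ratio_cont

lemma rep_equi : UniformEquicontinuous (fun (s : alg.P₁) (x : EE 𝕜 n) => rep 𝕜 n s x) :=
  LipschitzWith.uniformEquicontinuous _ 1 fun s => R_lip 𝕜 n (ratio_mem s.2)

lemma rep_closure (K : Set (EE 𝕜 n)) :
    ∀ g ∈ closure (Set.range fun (s : alg.P₁) (x : K) => rep 𝕜 n s (x : EE 𝕜 n)),
      Continuous g := by
  let Φ : ℝ → (K → EE 𝕜 n) := fun c x => R 𝕜 n c x
  have hΦ : Continuous Φ := continuous_pi fun x => R_cont 𝕜 n x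
  have hcpt : IsCompact (Φ '' Set.Icc 0 1) := isCompact_Icc.image hΦ
  have hsub : (Set.range fun (s : alg.P₁) (x : K) => rep 𝕜 n s (x : EE 𝕜 n))
      ⊆ Φ '' Set.Icc 0 1 := by
    rintro _ ⟨s, rfl⟩
    exact ⟨ratio s.1, ratio_mem s.2, rfl⟩
  intro g hg
  obtain ⟨c, _, rfl⟩ := closure_minimal hsub hcpt.isClosed hg
  exact (R_cont' 𝕜 n c).comp continuous_subtype_val

/-- the set `X` of all `(c w, w)`, `0 ≤ c ≤ 1` -/
def XX : Set (EE 𝕜 n) := {p | ∃ c ∈ Set.Icc (0 : ℝ) 1, p.1 = (c : 𝕜) • p.2}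

lemma XX_zero {p : EE 𝕜 n} (hp : p ∈ XX 𝕜 n) (h : p.2 = 0) : p = 0 := by
  obtain ⟨c, _, hc⟩ := hp
  rw [h, smul_zero] at hc
  exact Prod.ext hc h

/-- the subspace `H` of all `(u, 0)` -/
noncomputable def HH : Submodule 𝕜 (EE 𝕜 n) :=
  LinearMap.ker (LinearMap.snd 𝕜 (Fin n → 𝕜) (Fin n → 𝕜))

lemma mem_HH (p : EE 𝕜 n) : p ∈ HH 𝕜 n ↔ p.2 = 0 := by
  unfold HH
  rw [LinearMap.mem_ker, LinearMap.snd_apply]

lemma isClosed_HH : IsClosed (HH 𝕜 n : Set (EE 𝕜 n)) := by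
  have : (HH 𝕜 n : Set (EE 𝕜 n)) = Prod.snd ⁻¹' {0} := by
    ext p
    exact mem_HH 𝕜 n p
  rw [this]
  exact isClosed_singleton.preimage continuous_snd

lemma finrank_HH : finrank 𝕜 (EE 𝕜 n ⧸ HH 𝕜 n) = n := by
  have h := (LinearMap.quotKerEquivOfSurjective
    (LinearMap.snd 𝕜 (Fin n → 𝕜) (Fin n → 𝕜)) Prod.snd_surjective).finrank_eq
  rw [finrank_fin_fun] at h
  exact h

lemma slice_eq (x : EE 𝕜 n) : {y : EE 𝕜 n | y - x ∈ HH 𝕜 n} ∩ XX 𝕜 n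
    = (fun c : ℝ => (((c : 𝕜) • x.2, x.2) : EE 𝕜 n)) '' Set.Icc 0 1 := by
  ext y
  constructor
  · rintro ⟨h1, c, hc, h2⟩
    have h3 : y.2 = x.2 := by
      have := (mem_HH 𝕜 n _).1 h1
      rwa [Prod.snd_sub, sub_eq_zero] at this
    refine ⟨c, hc, ?_⟩
    change (((c : 𝕜) • x.2, x.2) : EE 𝕜 n) = y
    rw [← h3, ← h2]
  · rintro ⟨c, hc, rfl⟩
    refine ⟨?_, c, hc, rfl⟩
    change _ ∈ HH 𝕜 n
    rw [mem_HH]
    simp

lemma slice_compact (x : EE 𝕜 n) : IsCompact ({y : EE 𝕜 n | y - x ∈ HH 𝕜 n} ∩ XX 𝕜 n) := by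
  rw [slice_eq]
  refine isCompact_Icc.image ?_
  have h : Continuous fun c : ℝ => (c : 𝕜) := RCLike.continuous_ofReal
  exact (h.smul continuous_const).prodMk continuous_const

lemma slice_convex (x : EE 𝕜 n) :
    Convex ℝ ({y : EE 𝕜 n | y - x ∈ HH 𝕜 n} ∩ XX 𝕜 n) := by
  rw [slice_eq]
  rintro _ ⟨c, hc, rfl⟩ _ ⟨d, hd, rfl⟩ a b ha hb hab
  refine ⟨a * c + b * d, ?_, ?_⟩
  · exact (convex_Icc (0 : ℝ) 1) hc hd ha hb hab
  · apply Prod.ext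
    · funext i
      simp only [Prod.fst_add, Prod.smul_fst, Pi.add_apply, Pi.smul_apply, smul_eq_mul,
        RCLike.real_smul_eq_coe_mul]
      push_cast
      ring
    · funext i
      simp only [Prod.snd_add, Prod.smul_snd, Pi.add_apply, Pi.smul_apply,
        RCLike.real_smul_eq_coe_mul]
      rw [← add_mul, ← RCLike.ofReal_add, hab, RCLike.ofReal_one, one_mul]

lemma consistent : alg.IsConsistent (rep 𝕜 n) n (XX 𝕜 n) := by
  constructor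
  · refine ⟨LinearMap.range (LinearMap.inr 𝕜 (Fin n → 𝕜) (Fin n → 𝕜)), inferInstance, ?_, ?_⟩
    · rw [LinearMap.finrank_range_of_inj LinearMap.inr_injective, finrank_fin_fun]
    · rintro _ ⟨w, rfl⟩
      refine ⟨0, ⟨le_rfl, zero_le_one⟩, ?_⟩
      simp
  · rintro L ⟨_, h2, h3⟩ s hs
    refine ⟨inferInstance, ?_, ?_⟩
    · have hinj : Function.Injective ((rep 𝕜 n s).domRestrict L) := by
        rw [injective_iff_map_eq_zero]
        rintro ⟨x, hx⟩ h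
        have h4 : rep 𝕜 n s x = 0 := h
        have h5 : x.2 = 0 := congrArg Prod.snd h4
        exact Subtype.ext (XX_zero 𝕜 n (h3 hx) h5)
      rw [← LinearMap.range_domRestrict, LinearMap.finrank_range_of_inj hinj, h2]
    · rintro _ ⟨x, _, rfl⟩
      exact ⟨ratio s, ratio_mem hs, rfl⟩

lemma not_fixes (hn : 1 ≤ n) : ¬ alg.FixesSubspaceConvex (rep 𝕜 n) n := by
  intro h
  obtain ⟨L, ⟨_, h2, h3⟩, hL⟩ := h (XX 𝕜 n) (consistent 𝕜 n) (HH 𝕜 n) (isClosed_HH 𝕜 n)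
    (fun s _ x hx => (mem_HH 𝕜 n _).2 ((mem_HH 𝕜 n _).1 hx)) inferInstance (finrank_HH 𝕜 n)
    (slice_compact 𝕜 n) (slice_convex 𝕜 n)
  have hne : L ≠ ⊥ := by
    rintro rfl
    rw [finrank_bot] at h2
    omega
  obtain ⟨x, hx, hx0⟩ := L.ne_bot_iff.1 hne
  have e1 : rep 𝕜 n (A2.mk (e 0) 0) x ∈ L := by
    rw [← hL _ (inl_mem 0)]
    exact Submodule.mem_map_of_mem hx
  have e2 : rep 𝕜 n (A2.mk 0 (e 0)) x ∈ L := by
    rw [← hL _ (inr_mem 0)]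
    exact Submodule.mem_map_of_mem hx
  have e3 := h3 (L.sub_mem e1 e2)
  have e4 := XX_zero 𝕜 n e3 (by change x.2 - x.2 = 0; exact sub_self _)
  have e5 : ((ratio (A2.mk (e 0) 0) : ℝ) : 𝕜) • x.2 - ((ratio (A2.mk 0 (e 0)) : ℝ) : 𝕜) • x.2 = 0 :=
    congrArg Prod.fst e4
  rw [ratio_inl, ratio_inr, RCLike.ofReal_zero, zero_smul, sub_zero, smul_eq_zero] at e5
  rcases e5 with e5 | e5
  · rw [RCLike.ofReal_eq_zero] at e5
    norm_num at e5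
  · exact hx0 (XX_zero 𝕜 n (h3 hx) e5)

theorem not_PropFAConvex (hn : 1 ≤ n) : ¬ alg.PropFAConvex 𝕜 n := by
  intro h
  exact not_fixes 𝕜 n hn (h (EE 𝕜 n) (rep 𝕜 n) (isRep 𝕜 n) (rep_cont 𝕜 n)
    (fun K _ => (rep_equi 𝕜 n).equicontinuous.equicontinuousOn K))

theorem not_PropFWConvex (hn : 1 ≤ n) : ¬ alg.PropFWConvex 𝕜 n := by
  intro h
  exact not_fixes 𝕜 n hn (h (EE 𝕜 n) (rep 𝕜 n) (isRep 𝕜 n) (rep_cont 𝕜 n)
    (fun K _ => rep_closure 𝕜 n K))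

end action

end Pool.Agent.H241.FA
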